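import Pool.Agent.Q75.BM.Stm

/-! Jobs BM-NR, BM-RE, BM-HO, BM-CV, BM-AD. -/

set_option autoImplicit false

namespace Pool.Agent.Q204.BM

open Pool.Agent.Q75.BM
open Filter Topology MeasureTheory Set

theorem pr_eq {M N : SL} (h : pr M = pr N) : M.1 = N.1 ∨ M.1 = -N.1 := by
  have h1 : M⁻¹ * N ∈ Subgroup.center SL := QuotientGroup.eq.1 h
  rw [Matrix.SpecialLinearGroup.mem_center_iff] at h1
  obtain ⟨r, hr, hr2⟩ := h1
  have h2 : N = M * (M⁻¹ * N) := by group
  have h3 : N.1 = r • M.1 := by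
    calc N.1 = (M * (M⁻¹ * N)).1 := by rw [← h2]
      _ = M.1 * (M⁻¹ * N).1 := rfl
      _ = M.1 * Matrix.scalar (Fin 2) r := by rw [hr2]
      _ = r • M.1 := by
        rw [← Matrix.scalar_comm _ (fun s => Commute.all _ _), Matrix.scalar_apply,
          ← Matrix.smul_eq_diagonal_mul]
  have h4 : r = 1 ∨ r = -1 := by
    simp only [Fintype.card_fin] at hr
    exact sq_eq_one_iff.1 hr
  rcases h4 with rfl | rfl
  · left
    rw [h3, one_smul]
  · right
    rw [h3, neg_smul, one_smul, neg_neg]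

theorem hs_congr {M N : SL} (h : M.1 = N.1 ∨ M.1 = -N.1) : hs M = hs N := by
  unfold hs
  rcases h with h | h
  · rw [h]
  · rw [h]
    simp

theorem t_NR : S_NR := by
  refine ⟨fun M => ?_, fun M N => pr_eq⟩
  have h : pr (Quotient.out (pr M)) = pr M := Quotient.out_eq (pr M)
  exact hs_congr (pr_eq h)

theorem t_RE : S_RE := by
  intro t
  refine ⟨1, fun g => ?_⟩
  obtain ⟨x, hx⟩ := g
  have key : ∀ x ∈ Gp, ∃ A : Matrix.SpecialLinearGroup (Fin 2) ℝ,
      x (t : ℂ) = pr (Matrix.SpecialLinearGroup.map (algebraMap ℝ ℂ) A) := by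
    intro x hx
    induction hx using Subgroup.closure_induction with
    | mem x hx =>
      rcases hx with rfl | rfl
      · refine ⟨⟨!![t, -1; 1, 0], by simp [Matrix.det_fin_two]⟩, ?_⟩
        change pr (mA (t : ℂ)) = _
        congr 1
        ext i j
        fin_cases i <;> fin_cases j <;> simp [mA]
      · refine ⟨⟨!![1, 1; 0, 1], by simp [Matrix.det_fin_two]⟩, ?_⟩
        change pr mD = _
        congr 1
        ext i j
        fin_cases i <;> fin_cases j <;> simp [mD]
    | one => exact ⟨1, by simp⟩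
    | mul x y _ _ hx hy =>
      obtain ⟨A, hA⟩ := hx
      obtain ⟨B, hB⟩ := hy
      exact ⟨A * B, by rw [Pi.mul_apply, hA, hB, map_mul, map_mul]⟩
    | inv x _ hx =>
      obtain ⟨A, hA⟩ := hx
      exact ⟨A⁻¹, by rw [Pi.inv_apply, hA, map_inv, map_inv]⟩
  obtain ⟨A, hA⟩ := key x hx
  refine ⟨A, ?_⟩
  rw [one_mul, inv_one, mul_one, ← hA]
  rfl

theorem t_HO : S_HO := by
  intro g
  obtain ⟨x, hx⟩ := g
  have key : ∀ x ∈ Gp, ∃ M : ℂ → SL, (∀ i j, Differentiable ℂ fun l => (M l).1 i j) ∧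
      ∀ l, x l = pr (M l) := by
    intro x hx
    induction hx using Subgroup.closure_induction with
    | mem x hx =>
      rcases hx with rfl | rfl
      · refine ⟨mA, fun i j => ?_, fun l => rfl⟩
        fin_cases i <;> fin_cases j <;> simp [mA]
      · refine ⟨fun _ => mD, fun i j => ?_, fun l => rfl⟩
        exact differentiable_const _
    | one => exact ⟨fun _ => 1, fun i j => differentiable_const _, fun l => by simp⟩
    | mul x y _ _ hx hy =>
      obtain ⟨A, hA, hA'⟩ := hx
      obtain ⟨B, hB, hB'⟩ := hy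
      refine ⟨fun l => A l * B l, fun i j => ?_, fun l => by rw [Pi.mul_apply, hA', hB', map_mul]⟩
      simp only [Matrix.SpecialLinearGroup.coe_mul, Matrix.mul_apply, Fin.sum_univ_two]
      exact ((hA i 0).mul (hB 0 j)).add ((hA i 1).mul (hB 1 j))
    | inv x _ hx =>
      obtain ⟨A, hA, hA'⟩ := hx
      refine ⟨fun l => (A l)⁻¹, fun i j => ?_, fun l => by rw [Pi.inv_apply, hA', map_inv]⟩
      simp only [Matrix.SpecialLinearGroup.coe_inv, Matrix.adjugate_fin_two]
      fin_cases i <;> fin_cases j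
      · exact hA 1 1
      · exact (hA 0 1).neg
      · exact (hA 1 0).neg
      · exact hA 0 0
  obtain ⟨A, hA, hA'⟩ := key x hx
  exact ⟨A, hA, hA'⟩

theorem sum_px (ε : ℝ) (H : Gp → ℝ) : ∑ g ∈ Sx, px ε g * H g = ∑ s : Ltr, q ε s * H (gl s) := by
  classical
  simp only [px, Finset.sum_mul]
  rw [Finset.sum_comm]
  refine Finset.sum_congr rfl fun s _ => ?_
  rw [Finset.sum_eq_single (gl s)]
  · simp
  · intro b _ hb
    rw [if_neg (Ne.symm hb), zero_mul]
  · intro h
    exfalso
    apply h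
    simp only [Sx]
    exact Finset.mem_image_of_mem _ (Finset.mem_univ s)

theorem t_CV : S_CV := by
  intro ε n
  induction n with
  | zero =>
    intro F
    simp [conv, Ew]
  | succ n ih =>
    intro F
    rw [conv, sum_px, Ew]
    refine Finset.sum_congr rfl fun s _ => ?_
    rw [ih]
    simp only [List.map_append, List.map_cons, List.map_nil, List.prod_append, List.prod_singleton]

theorem q_nonneg {ε : ℝ} (h0 : 0 < ε) (h1 : ε < 1 / 3) (s : Ltr) : 0 < q ε s := by
  cases s <;> simp only [q] <;> linarith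

theorem sum_q (ε : ℝ) : ∑ s : Ltr, q ε s = 1 := by
  have : (Finset.univ : Finset Ltr) = {Ltr.a, Ltr.ai, Ltr.d, Ltr.di} := rfl
  rw [this]
  simp [q]
  ring

theorem gl_mul_a : gl Ltr.a * gl Ltr.ai = 1 := by
  apply Subtype.ext
  funext l
  change pr (mA l) * pr ((mA l)⁻¹) = 1
  rw [map_inv, mul_inv_cancel]

theorem gl_ai : gl Ltr.ai = (gl Ltr.a)⁻¹ := (inv_eq_of_mul_eq_one_right gl_mul_a).symm

theorem gl_mul_d : gl Ltr.d * gl Ltr.di = 1 := by
  apply Subtype.ext
  funext l
  change pr mD * pr (mD⁻¹) = 1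
  rw [map_inv, mul_inv_cancel]

theorem gl_di : gl Ltr.di = (gl Ltr.d)⁻¹ := (inv_eq_of_mul_eq_one_right gl_mul_d).symm

theorem t_AD : S_AD := by
  intro ε h0 h1
  classical
  refine ⟨?_, ?_, ?_⟩
  · intro g hg
    simp only [Sx, Finset.mem_image, Finset.mem_univ, true_and] at hg
    obtain ⟨s, rfl⟩ := hg
    simp only [px]
    refine Finset.sum_pos' (fun t _ => ?_) ⟨s, Finset.mem_univ s, ?_⟩
    · split_ifs
      · exact (q_nonneg h0 h1 t).le
      · exact le_rfl
    · rw [if_pos rfl]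
      exact q_nonneg h0 h1 s
  · have h := sum_px ε (fun _ => 1)
    simp only [mul_one] at h
    rw [h, sum_q]
  · have hT : ∀ s, gl s ∈ Subsemigroup.closure (Sx : Set Gp) := fun s => by
      apply Subsemigroup.subset_closure
      simp only [Sx, Finset.coe_image, Finset.coe_univ, Set.image_univ]
      exact Set.mem_range_self s
    have h1T : (1 : Gp) ∈ Subsemigroup.closure (Sx : Set Gp) := by
      rw [← gl_mul_a]
      exact mul_mem (hT _) (hT _)
    rw [eq_top_iff]
    rintro ⟨x, hx⟩ -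
    have key : ∀ (x : ℂ → PSL) (hx : x ∈ Gp), (⟨x, hx⟩ : Gp) ∈ Subsemigroup.closure (Sx : Set Gp) ∧
        (⟨x, hx⟩ : Gp)⁻¹ ∈ Subsemigroup.closure (Sx : Set Gp) := by
      intro x hx
      induction hx using Subgroup.closure_induction with
      | mem x hx =>
        rcases hx with rfl | rfl
        · refine ⟨hT Ltr.a, ?_⟩
          change (gl Ltr.a)⁻¹ ∈ _
          rw [← gl_ai]
          exact hT _
        · refine ⟨hT Ltr.d, ?_⟩
          change (gl Ltr.d)⁻¹ ∈ _
          rw [← gl_di]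
          exact hT _
      | one => exact ⟨h1T, by rw [show (⟨1, Gp.one_mem⟩ : Gp)⁻¹ = 1 from inv_one]; exact h1T⟩
      | mul x y hx' hy' hx hy =>
        refine ⟨mul_mem hx.1 hy.1, ?_⟩
        have := mul_mem hy.2 hx.2
        rwa [← mul_inv_rev] at this
      | inv x _ hx =>
        refine ⟨hx.2, ?_⟩
        have := hx.1
        rw [← inv_inv (⟨x, _⟩ : Gp)] at this
        exact this
    exact (key x hx).1

end Pool.Agent.Q204.BM
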